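import Pool.Agent.Y772.OR.Sum
import Pool.Agent.Y772.SG.Per

/-!
# Orthogonality: the constant terms cancel
-/

set_option autoImplicit false

open NumberField Complex

namespace Pool.Agent.Y772.OR

open Pool.Agent.Y773 Pool.Agent.Y772.SG

set_option linter.unusedSectionVars false

variable {K : Type} [Field K] [NumberField K] [IsTotallyReal K]

lemma sg_zero (x : K) : sg (fun _ => 0) x = 1 := by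
  unfold sg
  simp

/-- scaling of the ideal -/
lemma qt_scale {𝔟 : Ideal (𝓞 K)} (hb : 𝔟 ≠ ⊥) {α x : 𝓞 K} (hα : α ≠ 0) (hx : x ∈ 𝔟) :
    qt (Ideal.span {α} * 𝔟) (α * x) = qt 𝔟 x := by
  have hα' : (Ideal.span {α} : Ideal (𝓞 K)) ≠ 0 := by
    rw [Ne, Ideal.zero_eq_bot, Ideal.span_singleton_eq_bot]
    exact hα
  refine qt_spec (mul_ne_zero hα' hb) ?_
  calc qt 𝔟 x * (Ideal.span {α} * 𝔟) = Ideal.span {α} * (qt 𝔟 x * 𝔟) := by ring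
    _ = _ := by rw [qt_mul hx, Ideal.span_singleton_mul_span_singleton]

/-- changing the ideal by an integral ideal -/
lemma qt_shift {𝔟 𝔞 : Ideal (𝓞 K)} (hb : 𝔟 ≠ ⊥) {x : 𝓞 K} (hx : x ∈ 𝔟 * 𝔞) :
    qt 𝔟 x = 𝔞 * qt (𝔟 * 𝔞) x := by
  refine qt_spec hb ?_
  calc 𝔞 * qt (𝔟 * 𝔞) x * 𝔟 = qt (𝔟 * 𝔞) x * (𝔟 * 𝔞) := by ring
    _ = _ := qt_mul hx

variable {𝔪 : Ideal (𝓞 K)} {e : InfinitePlace K → ℕ} {η : Ideal (𝓞 K) →*₀ ℂ}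

lemma ps_zero (hη : IsModChar 𝔪 e η) {𝔟 : Ideal (𝓞 K)} (hb : 𝔟 ≠ ⊥) {x : 𝓞 K} (hx : x ∉ 𝔟) :
    Ps η e 𝔟 x = 0 := ((t_per K 𝔪 e η hη).2.2 𝔟 hb).2.1 x hx

lemma ps_per (hη : IsModChar 𝔪 e η) {𝔟 : Ideal (𝓞 K)} (hb : 𝔟 ≠ ⊥) (x y : 𝓞 K)
    (h : x - y ∈ 𝔟 * 𝔪) : Ps η e 𝔟 x = Ps η e 𝔟 y := ((t_per K 𝔪 e η hη).2.2 𝔟 hb).1 x y h

/-- the intersection of `𝔟 𝔞` and `𝔟 𝔪` -/
lemma mem_inter {𝔟 𝔞 𝔪 : Ideal (𝓞 K)} (hb : 𝔟 ≠ ⊥) (hc : IsCoprime 𝔞 𝔪) {x : 𝓞 K}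
    (h1 : x ∈ 𝔟 * 𝔞) (h2 : x ∈ 𝔟 * 𝔪) : x ∈ 𝔟 * 𝔞 * 𝔪 := by
  have hle : 𝔟 * 𝔞 ≤ 𝔟 := Ideal.mul_le_left
  have hq := qt_mul (hle h1)
  have e1 : 𝔞 ∣ qt 𝔟 x := by
    have h3 : 𝔟 * 𝔞 ∣ 𝔟 * qt 𝔟 x := by
      rw [mul_comm 𝔟 (qt 𝔟 x), hq, Ideal.dvd_iff_le, Ideal.span_singleton_le_iff_mem]
      exact h1
    exact (mul_dvd_mul_iff_left (show (𝔟 : Ideal (𝓞 K)) ≠ 0 from hb)).1 h3
  have e2 : 𝔪 ∣ qt 𝔟 x := by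
    have h3 : 𝔟 * 𝔪 ∣ 𝔟 * qt 𝔟 x := by
      rw [mul_comm 𝔟 (qt 𝔟 x), hq, Ideal.dvd_iff_le, Ideal.span_singleton_le_iff_mem]
      exact h2
    exact (mul_dvd_mul_iff_left (show (𝔟 : Ideal (𝓞 K)) ≠ 0 from hb)).1 h3
  have e3 : 𝔞 * 𝔪 ∣ qt 𝔟 x := hc.mul_dvd e1 e2
  have e4 : 𝔟 * 𝔞 * 𝔪 ∣ Ideal.span {x} := by
    rw [← hq, mul_comm (qt 𝔟 x) 𝔟, mul_assoc]
    exact mul_dvd_mul_left _ e3
  rw [Ideal.dvd_iff_le, Ideal.span_singleton_le_iff_mem] at e4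
  exact e4

/-- the sum over the classes modulo `𝔟 𝔪` -/
noncomputable def SS (η : Ideal (𝓞 K) →*₀ ℂ) (𝔪 𝔟 : Ideal (𝓞 K)) : ℂ :=
  SI (𝔟 * 𝔪) (Ps η (fun _ => 0) 𝔟)

lemma SS_scale (hη : IsModChar 𝔪 (fun _ => 0) η) {𝔟 : Ideal (𝓞 K)} (hb : 𝔟 ≠ ⊥) {α : 𝓞 K}
    (hα : α ≠ 0) : SS η 𝔪 𝔟 = SS η 𝔪 (Ideal.span {α} * 𝔟) := by
  have hα' : (Ideal.span {α} : Ideal (𝓞 K)) ≠ 0 := by
    rw [Ne, Ideal.zero_eq_bot, Ideal.span_singleton_eq_bot]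
    exact hα
  have hb' : Ideal.span {α} * 𝔟 ≠ ⊥ := mul_ne_zero hα' hb
  unfold SS
  refine transfer (A := 𝔟) (B := Ideal.span {α} * 𝔟) (mul_ne_zero hb hη.ne_bot)
    (mul_ne_zero hb' hη.ne_bot) (AddMonoidHom.mulLeft α) (ps_per hη hb) (ps_per hη hb')
    Ideal.mul_le_left Ideal.mul_le_left (fun x hx => ps_zero hη hb hx)
    (fun x hx => ps_zero hη hb' hx) ?_ ?_ ?_ ?_ ?_
  · intro x hx
    exact Ideal.mul_mem_mul (Ideal.mem_span_singleton_self α) hx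
  · intro x _ h
    rw [AddMonoidHom.coe_mulLeft, mul_assoc, Ideal.mem_span_singleton_mul] at h
    obtain ⟨z, hz, hz2⟩ := h
    rw [← mul_left_cancel₀ hα hz2]
    exact hz
  · intro x hx
    rw [AddMonoidHom.coe_mulLeft, mul_assoc]
    exact Ideal.mul_mem_mul (Ideal.mem_span_singleton_self α) hx
  · intro y hy
    rw [Ideal.mem_span_singleton_mul] at hy
    obtain ⟨z, hz, rfl⟩ := hy
    refine ⟨z, hz, ?_⟩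
    rw [AddMonoidHom.coe_mulLeft, sub_self]
    exact Ideal.zero_mem _
  · intro x hx
    rw [AddMonoidHom.coe_mulLeft]
    unfold Ps
    rw [qt_scale hb hα hx, sg_zero, sg_zero]

lemma SS_shift (hη : IsModChar 𝔪 (fun _ => 0) η) {𝔟 𝔞 : Ideal (𝓞 K)} (hb : 𝔟 ≠ ⊥)
    (ha : IsCoprime 𝔞 𝔪) : η 𝔞 * SS η 𝔪 (𝔟 * 𝔞) = SS η 𝔪 𝔟 := by
  have ha0 := ne_zero_of_coprime hη.ne_top ha
  have hb' : 𝔟 * 𝔞 ≠ ⊥ := mul_ne_zero hb ha0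
  have h1 : η 𝔞 * SS η 𝔪 (𝔟 * 𝔞) = SI (𝔟 * 𝔞 * 𝔪)
      (fun x => η 𝔞 * Ps η (fun _ => 0) (𝔟 * 𝔞) x) := by
    unfold SS SI
    rw [mul_finsum]
  rw [h1]
  unfold SS
  have hle1 : 𝔟 * 𝔞 * 𝔪 ≤ 𝔟 * 𝔞 := Ideal.mul_le_left
  have hle2 : 𝔟 * 𝔪 ≤ 𝔟 := Ideal.mul_le_left
  have hle3 : 𝔟 * 𝔞 ≤ 𝔟 := Ideal.mul_le_left
  have hle4 : 𝔟 * 𝔞 * 𝔪 ≤ 𝔟 * 𝔪 := by
    have : 𝔟 * 𝔞 * 𝔪 = (𝔟 * 𝔪) * 𝔞 := by ring
    rw [this]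
    exact Ideal.mul_le_left
  refine transfer (A := 𝔟 * 𝔞) (B := 𝔟) (mul_ne_zero hb' hη.ne_bot)
    (mul_ne_zero hb hη.ne_bot) (AddMonoidHom.id _) ?_ (ps_per hη hb)
    hle1 hle2 ?_ (fun x hx => ps_zero hη hb hx) ?_ ?_ ?_ ?_ ?_
  · intro x y h
    rw [ps_per hη hb' x y h]
  · intro x hx
    rw [ps_zero hη hb' hx, mul_zero]
  · intro x hx
    exact hle3 hx
  · intro x hx h
    exact mem_inter hb ha hx h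
  · intro x hx
    exact hle4 hx
  · intro y hy
    obtain ⟨a, haa, b, hbb, hab⟩ := (Ideal.isCoprime_iff_exists).1 ha
    refine ⟨y * a, Ideal.mul_mem_mul hy haa, ?_⟩
    have : y - (AddMonoidHom.id (𝓞 K)) (y * a) = y * b := by
      rw [AddMonoidHom.id_apply]
      linear_combination -y * hab
    rw [this]
    exact Ideal.mul_mem_mul hy hbb
  · intro x hx
    rw [AddMonoidHom.id_apply]
    unfold Ps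
    rw [qt_shift hb hx, map_mul]
    ring

theorem t_orth : StOrth := by
  intro K _ _ _ 𝔪 η hη hex 𝔟 h0 hcls m hm hmem
  classical
  obtain ⟨𝔞, ha, hη1⟩ := hex
  have ha0 := ne_zero_of_coprime hη.ne_top ha
  have hN𝔪 : (Ideal.absNorm 𝔪 : ℂ) ≠ 0 := by
    have : Ideal.absNorm 𝔪 ≠ 0 := by rw [Ne, Ideal.absNorm_eq_zero_iff]; exact hη.ne_bot
    exact_mod_cast this
  have hm0 : (Ideal.span {(m : 𝓞 K)} : Ideal (𝓞 K)) ≠ ⊥ := by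
    rw [Ne, Ideal.span_singleton_eq_bot]
    exact_mod_cast hm.ne'
  -- reduction to SS
  have h1 : ∀ c, (Ideal.absNorm (𝔟 c) : ℂ) *
      ∑ᶠ r : 𝓞 K ⧸ Ideal.span {(m : 𝓞 K)}, Ps η (fun _ => 0) (𝔟 c) (Quotient.out r) =
      ((Ideal.absNorm (Ideal.span {(m : 𝓞 K)}) : ℂ) / (Ideal.absNorm 𝔪 : ℂ)) * SS η 𝔪 (𝔟 c) := by
    intro c
    have hle : Ideal.span {(m : 𝓞 K)} ≤ 𝔟 c * 𝔪 := by
      rw [Ideal.span_singleton_le_iff_mem]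
      exact hmem c
    have h2 := refine_mod hm0 hle (ps_per hη (h0 c))
    rw [map_mul, Nat.cast_mul] at h2
    have h3 : SI (Ideal.span {(m : 𝓞 K)}) (Ps η (fun _ => 0) (𝔟 c)) =
      ∑ᶠ r : 𝓞 K ⧸ Ideal.span {(m : 𝓞 K)}, Ps η (fun _ => 0) (𝔟 c) (Quotient.out r) := rfl
    rw [h3] at h2
    unfold SS
    rw [div_mul_eq_mul_div, eq_div_iff hN𝔪, ← h2]
    ring
  rw [Finset.sum_congr rfl fun c _ => h1 c, ← Finset.mul_sum]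
  -- the permutation
  set γ : ClassGroup (𝓞 K) := ClassGroup.mk0 ⟨𝔞, mem_nonZeroDivisors_of_ne_zero ha0⟩ with hγ
  have h2 : ∀ c, η 𝔞 * SS η 𝔪 (𝔟 (c * γ)) = SS η 𝔪 (𝔟 c) := by
    intro c
    have hba : 𝔟 c * 𝔞 ≠ ⊥ := mul_ne_zero (h0 c) ha0
    have h3 : ClassGroup.mk0 ⟨𝔟 (c * γ), mem_nonZeroDivisors_of_ne_zero (h0 (c * γ))⟩ =
        ClassGroup.mk0 ⟨𝔟 c * 𝔞, mem_nonZeroDivisors_of_ne_zero hba⟩ := by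
      rw [hcls]
      have h4 : (⟨𝔟 c * 𝔞, mem_nonZeroDivisors_of_ne_zero hba⟩ : nonZeroDivisors (Ideal (𝓞 K))) =
          ⟨𝔟 c, mem_nonZeroDivisors_of_ne_zero (h0 c)⟩ *
            ⟨𝔞, mem_nonZeroDivisors_of_ne_zero ha0⟩ := rfl
      rw [h4, map_mul, hcls]
    rw [ClassGroup.mk0_eq_mk0_iff] at h3
    obtain ⟨x, y, hx, hy, hxy⟩ := h3
    have hxy' : Ideal.span {x} * 𝔟 (c * γ) = Ideal.span {y} * (𝔟 c * 𝔞) := hxy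
    rw [SS_scale hη (h0 (c * γ)) hx, hxy', ← SS_scale hη hba hy, SS_shift hη (h0 c) ha]
  have h3 : η 𝔞 * ∑ c, SS η 𝔪 (𝔟 c) = ∑ c, SS η 𝔪 (𝔟 c) := by
    rw [← Equiv.sum_comp (Equiv.mulRight γ) (fun c => SS η 𝔪 (𝔟 c)), Finset.mul_sum]
    rw [Equiv.sum_comp (Equiv.mulRight γ) (fun c => SS η 𝔪 (𝔟 c))]
    exact Finset.sum_congr rfl fun c _ => h2 c
  have h4 : ∑ c, SS η 𝔪 (𝔟 c) = 0 := by
    have h5 : (η 𝔞 - 1) * ∑ c, SS η 𝔪 (𝔟 c) = 0 := by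
      rw [sub_mul, one_mul, h3, sub_self]
    exact (mul_eq_zero.1 h5).resolve_left (sub_ne_zero.2 hη1)
  rw [h4, mul_zero]

end Pool.Agent.Y772.OR
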