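import Mathlib

/-!
# Sums of periodic functions over residue classes
-/

set_option autoImplicit false

open NumberField

namespace Pool.Agent.Y772.OR

set_option linter.unusedSectionVars false

variable {K : Type} [Field K] [NumberField K]

/-- the sum of `f` over the classes modulo `I` -/
noncomputable def SI (I : Ideal (𝓞 K)) (f : 𝓞 K → ℂ) : ℂ := ∑ᶠ r : 𝓞 K ⧸ I, f (Quotient.out r)

lemma out_sub (I : Ideal (𝓞 K)) (x : 𝓞 K) :
    (Quotient.out (Ideal.Quotient.mk I x) : 𝓞 K) - x ∈ I := by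
  rw [← Ideal.Quotient.eq]
  exact Quotient.out_eq (Ideal.Quotient.mk I x)

lemma per_out {I : Ideal (𝓞 K)} {f : 𝓞 K → ℂ} (hf : ∀ x y, x - y ∈ I → f x = f y) (x : 𝓞 K) :
    f (Quotient.out (Ideal.Quotient.mk I x) : 𝓞 K) = f x := hf _ _ (out_sub I x)

lemma mk_out {I : Ideal (𝓞 K)} (r : 𝓞 K ⧸ I) : Ideal.Quotient.mk I (Quotient.out r : 𝓞 K) = r :=
  Quotient.out_eq r

/-- transfer of sums -/
lemma transfer {I J A B : Ideal (𝓞 K)} (hI : I ≠ ⊥) (hJ : J ≠ ⊥) (φ : 𝓞 K →+ 𝓞 K)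
    {f g : 𝓞 K → ℂ} (hf : ∀ x y, x - y ∈ I → f x = f y) (hg : ∀ x y, x - y ∈ J → g x = g y)
    (hIA : I ≤ A) (hJB : J ≤ B)
    (hfA : ∀ x, x ∉ A → f x = 0) (hgB : ∀ x, x ∉ B → g x = 0)
    (hφ : ∀ x ∈ A, φ x ∈ B) (h1 : ∀ x ∈ A, φ x ∈ J → x ∈ I) (h2 : ∀ x ∈ I, φ x ∈ J)
    (h3 : ∀ y ∈ B, ∃ x ∈ A, y - φ x ∈ J) (h4 : ∀ x ∈ A, f x = g (φ x)) : SI I f = SI J g := by
  classical
  have hfI : Finite (𝓞 K ⧸ I) := Ideal.finiteQuotientOfFreeOfNeBot I hI
  have hfJ : Finite (𝓞 K ⧸ J) := Ideal.finiteQuotientOfFreeOfNeBot J hJ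
  have : Fintype (𝓞 K ⧸ I) := Fintype.ofFinite _
  have : Fintype (𝓞 K ⧸ J) := Fintype.ofFinite _
  unfold SI
  rw [finsum_eq_sum_of_fintype, finsum_eq_sum_of_fintype]
  set s : Finset (𝓞 K ⧸ I) := Finset.univ.filter fun r => (Quotient.out r : 𝓞 K) ∈ A with hs
  set t : Finset (𝓞 K ⧸ J) := Finset.univ.filter fun r => (Quotient.out r : 𝓞 K) ∈ B with ht
  have e1 : ∑ r : 𝓞 K ⧸ I, f (Quotient.out r) = ∑ r ∈ s, f (Quotient.out r) := by
    rw [hs, Finset.sum_filter]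
    refine Finset.sum_congr rfl fun r _ => ?_
    split_ifs with h
    · rfl
    · exact hfA _ h
  have e2 : ∑ r : 𝓞 K ⧸ J, g (Quotient.out r) = ∑ r ∈ t, g (Quotient.out r) := by
    rw [ht, Finset.sum_filter]
    refine Finset.sum_congr rfl fun r _ => ?_
    split_ifs with h
    · rfl
    · exact hgB _ h
  rw [e1, e2]
  refine Finset.sum_bij (fun r _ => Ideal.Quotient.mk J (φ (Quotient.out r : 𝓞 K))) ?_ ?_ ?_ ?_
  · intro r hr
    rw [hs, Finset.mem_filter] at hr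
    rw [ht, Finset.mem_filter]
    refine ⟨Finset.mem_univ _, ?_⟩
    have h5 := hJB (out_sub J (φ (Quotient.out r : 𝓞 K)))
    have h6 := B.add_mem h5 (hφ _ hr.2)
    rwa [sub_add_cancel] at h6
  · intro r hr r' hr' h
    rw [hs, Finset.mem_filter] at hr hr'
    rw [Ideal.Quotient.eq, ← map_sub] at h
    have h5 := h1 _ (A.sub_mem hr.2 hr'.2) h
    rw [← Ideal.Quotient.eq, mk_out, mk_out] at h5
    exact h5
  · intro r hr
    rw [ht, Finset.mem_filter] at hr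
    obtain ⟨x, hx, hx2⟩ := h3 _ hr.2
    have h5 := out_sub I x
    refine ⟨Ideal.Quotient.mk I x, ?_, ?_⟩
    · rw [hs, Finset.mem_filter]
      refine ⟨Finset.mem_univ _, ?_⟩
      have h6 := A.add_mem (hIA h5) hx
      rwa [sub_add_cancel] at h6
    · rw [← mk_out r]
      rw [Ideal.Quotient.eq]
      have h6 := h2 _ h5
      rw [map_sub] at h6
      have h7 := J.sub_mem h6 hx2
      have e : φ (Quotient.out (Ideal.Quotient.mk I x) : 𝓞 K) - φ x -
          ((Quotient.out r : 𝓞 K) - φ x) =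
          φ (Quotient.out (Ideal.Quotient.mk I x) : 𝓞 K) - (Quotient.out r : 𝓞 K) := by ring
      rw [e] at h7
      exact h7
  · intro r hr
    rw [hs, Finset.mem_filter] at hr
    rw [h4 _ hr.2, per_out hg]

/-- change of the modulus -/
lemma refine_mod {I I' : Ideal (𝓞 K)} (hI' : I' ≠ ⊥) (hle : I' ≤ I) {f : 𝓞 K → ℂ}
    (hf : ∀ x y, x - y ∈ I → f x = f y) :
    (Ideal.absNorm I : ℂ) * SI I' f = (Ideal.absNorm I' : ℂ) * SI I f := by
  classical
  have hI : I ≠ ⊥ := fun h => hI' (le_bot_iff.1 (h ▸ hle))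
  have hfI : Finite (𝓞 K ⧸ I) := Ideal.finiteQuotientOfFreeOfNeBot I hI
  have hfI' : Finite (𝓞 K ⧸ I') := Ideal.finiteQuotientOfFreeOfNeBot I' hI'
  have : Fintype (𝓞 K ⧸ I) := Fintype.ofFinite _
  have : Fintype (𝓞 K ⧸ I') := Fintype.ofFinite _
  unfold SI
  rw [finsum_eq_sum_of_fintype, finsum_eq_sum_of_fintype]
  set π : 𝓞 K ⧸ I' →+* 𝓞 K ⧸ I := Ideal.Quotient.factor hle with hπ
  have hπs : Function.Surjective π := Ideal.Quotient.factor_surjective hle
  have hπm : ∀ x : 𝓞 K, π (Ideal.Quotient.mk I' x) = Ideal.Quotient.mk I x := fun x =>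
    Ideal.Quotient.factor_mk hle x
  -- the fibres
  set k : ℕ := (Finset.univ.filter fun r : 𝓞 K ⧸ I' => π r = 0).card with hk
  have hfib : ∀ r : 𝓞 K ⧸ I, (Finset.univ.filter fun r' : 𝓞 K ⧸ I' => π r' = r).card = k := by
    intro r
    obtain ⟨r₀, rfl⟩ := hπs r
    rw [hk]
    refine Finset.card_bij (fun a _ => a - r₀) ?_ ?_ ?_
    · intro a ha
      rw [Finset.mem_filter] at ha ⊢
      refine ⟨Finset.mem_univ _, ?_⟩
      rw [map_sub, ha.2, sub_self]
    · intro a _ b _ h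
      exact sub_left_injective h
    · intro b hb
      rw [Finset.mem_filter] at hb
      refine ⟨b + r₀, ?_, by ring⟩
      rw [Finset.mem_filter]
      refine ⟨Finset.mem_univ _, ?_⟩
      rw [map_add, hb.2, zero_add]
  have e1 : ∀ r' : 𝓞 K ⧸ I', f (Quotient.out r') = f (Quotient.out (π r')) := by
    intro r'
    obtain ⟨x, rfl⟩ := Ideal.Quotient.mk_surjective r'
    rw [hπm, per_out hf, per_out fun x y h => hf x y (hle h)]
  have e2 : ∑ r' : 𝓞 K ⧸ I', f (Quotient.out r') = (k : ℂ) * ∑ r : 𝓞 K ⧸ I, f (Quotient.out r) := by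
    rw [← Finset.sum_fiberwise (Finset.univ : Finset (𝓞 K ⧸ I')) π, Finset.mul_sum]
    refine Finset.sum_congr rfl fun r _ => ?_
    rw [← hfib r]
    rw [Finset.sum_congr rfl (g := fun _ => f (Quotient.out r))]
    · rw [Finset.sum_const, nsmul_eq_mul]
    · intro r' hr'
      rw [Finset.mem_filter] at hr'
      rw [e1, hr'.2]
  have e3 : Ideal.absNorm I' = k * Ideal.absNorm I := by
    have h1 : Fintype.card (𝓞 K ⧸ I') = k * Fintype.card (𝓞 K ⧸ I) := by
      rw [← Finset.card_univ, Finset.card_eq_sum_card_fiberwise (f := π)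
        (t := (Finset.univ : Finset (𝓞 K ⧸ I))) (fun _ _ => Finset.mem_univ _)]
      rw [Finset.sum_congr rfl fun r _ => hfib r, Finset.sum_const, Finset.card_univ, smul_eq_mul,
        mul_comm]
    rw [Ideal.absNorm_apply, Ideal.absNorm_apply, Submodule.cardQuot_apply,
      Submodule.cardQuot_apply, Nat.card_eq_fintype_card, Nat.card_eq_fintype_card]
    exact h1
  rw [e2, e3]
  push_cast
  ring

end Pool.Agent.Y772.OR
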